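import Pool.Agent.helper44.EX.Spec

/-!
# Project ex: module RTL: the loss of the `n`-th root
-/

set_option autoImplicit false

open Complex Metric Set Filter Topology MeasureTheory Pool.Agent.helper98.ILF

noncomputable section

namespace EX

/-- the argument of the principal `n`-th root. -/
theorem RTL_arg (n : ℕ) (hn : 2 ≤ n) (y : ℂ) (hy : y ≠ 0) :
    |arg (y ^ ((n : ℂ)⁻¹))| ≤ Real.pi / n := by
  have hn0 : (0 : ℝ) < n := by positivity
  have h1 : y ^ ((n : ℂ)⁻¹) = exp (log y * (n : ℂ)⁻¹) := cpow_def_of_ne_zero hy _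
  have h2 : (log y * (n : ℂ)⁻¹).im = arg y / n := by
    have : (log y * (n : ℂ)⁻¹) = log y / ((n : ℝ) : ℂ) := by
      rw [div_eq_mul_inv]; simp
    rw [this, Complex.div_ofReal_im, log_im]
  have h3 : |arg y / n| ≤ Real.pi / n := by
    rw [abs_div, abs_of_pos hn0]
    gcongr
    exact abs_arg_le_pi y
  have h4 : Real.pi / n < Real.pi := by
    apply div_lt_self Real.pi_pos
    have : (2 : ℝ) ≤ n := by exact_mod_cast hn
    linarith
  have h5 : arg (exp (log y * (n : ℂ)⁻¹)) = arg y / n := by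
    rw [← log_im, log_exp, h2]
    · rw [h2]
      have := (abs_le.1 h3).1
      linarith
    · rw [h2]
      have := (abs_le.1 h3).2
      linarith
  rw [h1, h5]
  exact h3

theorem RTL_bern (n : ℕ) (x : ℝ) (hx : 0 ≤ x) : 1 - x ^ n ≤ n * (1 - x) := by
  have h := one_add_mul_le_pow (a := x - 1) (by linarith) n
  have h2 : (1 + (x - 1)) ^ n = x ^ n := by ring_nf
  rw [h2] at h
  nlinarith

theorem RTL (hSEC : SEC_stmt) (hRHO : RHO_stmt) : RTL_stmt := by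
  intro n hn
  obtain ⟨κ, hκ, hS⟩ := hSEC n hn
  have hn0 : (0 : ℝ) < n := by positivity
  have hn0' : n ≠ 0 := by omega
  refine ⟨min (1 / n) ((κ / n) ^ 2), by positivity, ?_, ?_⟩
  · calc min (1 / (n : ℝ)) ((κ / n) ^ 2) * n ≤ (1 / n) * n := by
          gcongr
          exact min_le_left _ _
      _ = 1 := by field_simp
  intro w hw hw0 y hy hwy
  have hy0 : y ≠ 0 := slitPlane_ne_zero hy
  set Y := y ^ ((n : ℂ)⁻¹) with hY
  have hYn : Y ^ n = y := cpow_nat_inv_pow y hn0'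
  set v := w * Y with hv
  have hvn : v ^ n = w ^ n * y := by rw [hv, mul_pow, hYn]
  have hv1 : ‖v‖ < 1 := by
    rw [← hvn, norm_pow] at hwy
    exact (pow_lt_one_iff_of_nonneg (norm_nonneg _) hn0').1 hwy
  have hw1 : ‖w‖ < 1 := by simpa using hw
  refine ⟨hv1, ?_⟩
  set t := (starRingEnd ℂ) w * v with ht
  have ht1 : t = ((normSq w : ℝ) : ℂ) * Y := by
    rw [ht, hv, ← mul_assoc, ← Complex.normSq_eq_conj_mul_self]
  have hnw : 0 < normSq w := normSq_pos.2 hw0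
  have harg : |arg t| ≤ Real.pi / n := by
    rw [ht1, arg_real_mul _ hnw]
    exact RTL_arg n hn y hy0
  have htn : ‖t‖ < 1 := by
    rw [ht, norm_mul, RCLike.norm_conj]
    have h1 := norm_nonneg w
    have h2 := norm_nonneg v
    nlinarith
  have hsum := hS t htn.le harg
  have hgeo : (1 - t) * ∑ i ∈ Finset.range n, t ^ i = 1 - t ^ n := mul_neg_geom_sum t n
  have hnorm : ‖1 - t‖ * ‖∑ i ∈ Finset.range n, t ^ i‖ = ‖1 - t ^ n‖ := by
    rw [← norm_mul, hgeo]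
  have hk : κ * ‖1 - t‖ ≤ ‖1 - t ^ n‖ := by
    rw [← hnorm, mul_comm]
    gcongr
  have htn' : ‖t ^ n‖ < 1 := by
    rw [norm_pow]
    exact pow_lt_one₀ (norm_nonneg _) htn hn0'
  have hpos : 0 < ‖1 - t ^ n‖ := by
    rw [norm_pos_iff, sub_ne_zero]
    intro h
    rw [← h] at htn'
    simp at htn'
  have hpos1 : 0 < ‖1 - t‖ := by
    rw [norm_pos_iff, sub_ne_zero]
    intro h
    rw [← h] at htn
    simp at htn
  have hvb : v ∈ ball (0 : ℂ) 1 := by simpa using hv1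
  have hwnb : w ^ n ∈ ball (0 : ℂ) 1 := by
    simp only [mem_ball, dist_zero_right, norm_pow]
    exact pow_lt_one₀ (norm_nonneg _) hw1 hn0'
  have hvnb : v ^ n ∈ ball (0 : ℂ) 1 := by
    simp only [mem_ball, dist_zero_right, norm_pow]
    exact pow_lt_one₀ (norm_nonneg _) hv1 hn0'
  have e1 := (hRHO.1 w hw v hvb).2.2.2
  have e2 := (hRHO.1 (w ^ n) hwnb (v ^ n) hvnb).2.2.2
  have e3 : (starRingEnd ℂ) (w ^ n) * v ^ n = t ^ n := by
    rw [ht, map_pow, ← mul_pow]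
  rw [e3] at e2
  rw [← ht] at e1
  rw [← hvn, e1, e2]
  have b1 : 1 - ‖w ^ n‖ ^ 2 ≤ n * (1 - ‖w‖ ^ 2) := by
    have := RTL_bern n (‖w‖ ^ 2) (by positivity)
    rw [norm_pow, ← pow_mul, mul_comm n 2, pow_mul]
    exact this
  have b2 : 1 - ‖v ^ n‖ ^ 2 ≤ n * (1 - ‖v‖ ^ 2) := by
    have := RTL_bern n (‖v‖ ^ 2) (by positivity)
    rw [norm_pow, ← pow_mul, mul_comm n 2, pow_mul]
    exact this
  have c1 : 0 ≤ 1 - ‖w ^ n‖ ^ 2 := by
    have : ‖w ^ n‖ < 1 := by simpa using hwnb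
    have h0 := norm_nonneg (w ^ n)
    nlinarith
  have c2 : 0 ≤ 1 - ‖v ^ n‖ ^ 2 := by
    have : ‖v ^ n‖ < 1 := by simpa using hvnb
    have h0 := norm_nonneg (v ^ n)
    nlinarith
  have d1 : 0 ≤ 1 - ‖w‖ ^ 2 := by
    have h0 := norm_nonneg w
    nlinarith
  have d2 : 0 ≤ 1 - ‖v‖ ^ 2 := by
    have h0 := norm_nonneg v
    nlinarith
  have hk2 : κ ^ 2 * ‖1 - t‖ ^ 2 ≤ ‖1 - t ^ n‖ ^ 2 := by
    rw [← mul_pow]
    gcongr
  calc min (1 / (n : ℝ)) ((κ / n) ^ 2) *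
        ((1 - ‖w ^ n‖ ^ 2) * (1 - ‖v ^ n‖ ^ 2) / ‖1 - t ^ n‖ ^ 2)
      ≤ (κ / n) ^ 2 * ((1 - ‖w ^ n‖ ^ 2) * (1 - ‖v ^ n‖ ^ 2) / ‖1 - t ^ n‖ ^ 2) := by
        gcongr
        exact min_le_right _ _
    _ ≤ (κ / n) ^ 2 * ((n * (1 - ‖w‖ ^ 2)) * (n * (1 - ‖v‖ ^ 2)) / ‖1 - t ^ n‖ ^ 2) := by
        gcongr
    _ = κ ^ 2 * ((1 - ‖w‖ ^ 2) * (1 - ‖v‖ ^ 2)) / ‖1 - t ^ n‖ ^ 2 := by
        field_simp
    _ ≤ (1 - ‖w‖ ^ 2) * (1 - ‖v‖ ^ 2) / ‖1 - t‖ ^ 2 := by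
        rw [div_le_div_iff₀ (by positivity) (by positivity)]
        have hm : 0 ≤ (1 - ‖w‖ ^ 2) * (1 - ‖v‖ ^ 2) := mul_nonneg d1 d2
        nlinarith [mul_le_mul_of_nonneg_left hk2 hm]

end EX
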